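import Pool.Agent.Helper39.LIP.St
import Pool.Agent.Helper91.GR.One
import Pool.Agent.Helper89.MG.Agf2L
import Pool.Agent.Helper93.LIP.LineX

/-! (2.4) of LIP(A): algebra of affine functions and rank one forms. -/

set_option autoImplicit false

namespace Pool.Agent.Helper52.L24

open Finset Matrix Pool.Agent.Helper3.LF Pool.Agent.Helper48.NS Pool.Agent.Helper89.LX Pool.Agent.Helper39.LIP
open Pool.Agent.Helper95.LF (PdM dv_add)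
open Pool.Agent.Helper97.SL (z0 vv_z0)
open Pool.Agent.Helper91.GR (m1 m1_val z0_val mon_cases sum_mon)

noncomputable section

variable {N q : ℕ}

theorem vv_m1 (p : Fin N → ℝ) (i : Fin N) : (vv p : Mon N 1 → ℝ) (m1 i) = p i := by
  rw [vv_apply, Finset.prod_eq_single i]
  · rw [m1_val, if_pos rfl, pow_one]
  · intro j _ hj
    rw [m1_val, if_neg hj, pow_zero]
  · intro h
    exact absurd (Finset.mem_univ i) h

theorem gv_z0 (u : Fin N → ℝ) : (gv u : Mon N 1 → ℝ) (z0 N 1) = 0 := by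
  have h1 := congrFun (vv_gv (0 : Fin N → ℝ) u) (z0 N 1)
  rw [Pi.add_apply, vv_z0, vv_z0] at h1
  linarith

theorem gv_m1 (u : Fin N → ℝ) (i : Fin N) : (gv u : Mon N 1 → ℝ) (m1 i) = u i := by
  have h1 := congrFun (vv_gv (0 : Fin N → ℝ) u) (m1 i)
  rw [Pi.add_apply, vv_m1, vv_m1, Pi.add_apply, Pi.zero_apply] at h1
  linarith

/-- vectors are combinations of a point and a derivative -/
theorem dec (v : Mon N 1 → ℝ) (p : Fin N → ℝ) :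
    v = v (z0 N 1) • vv p + gv (fun i => v (m1 i) - v (z0 N 1) * p i) := by
  funext a
  rw [Pi.add_apply, Pi.smul_apply, smul_eq_mul]
  rcases mon_cases a with h | ⟨i, h⟩
  · rw [h, vv_z0, gv_z0]
    ring
  · rw [h, vv_m1, gv_m1]
    ring

theorem z0_le {a : Matrix (Mon N 1) (Mon N 1) ℝ} (ha : ∀ x, x ⬝ᵥ x ≤ qf a x) (v : Mon N 1 → ℝ) :
    v (z0 N 1) ^ 2 ≤ qf a v := by
  refine le_trans ?_ (ha v)
  unfold dotProduct
  rw [sq]
  exact Finset.single_le_sum (f := fun b => v b * v b) (fun _ _ => mul_self_nonneg _) (Finset.mem_univ _)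

/-- two affine functions with close derivatives and small values at a point are close -/
theorem clo_all {a : Matrix (Mon (q + 1) 1) (Mon (q + 1) 1) ℝ} (ha : ∀ x, x ⬝ᵥ x ≤ qf a x)
    {n1 n2 : Mon (q + 1) 1 → ℝ} {p : Fin (q + 1) → ℝ} {τ β K : ℝ}
    (h1 : (n1 ⬝ᵥ vv p) ^ 2 ≤ β) (h2 : (n2 ⬝ᵥ vv p) ^ 2 ≤ β) (hp : qf a (vv p) ≤ K) {ε : ℝ} (hε : ε = 1 ∨ ε = -1)
    (hc : ∀ u : Fin (q + 1) → ℝ, ((n1 - ε • n2) ⬝ᵥ gv u) ^ 2 ≤ τ ^ 2 * qf a (gv u)) (v : Mon (q + 1) 1 → ℝ) :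
    ((n1 - ε • n2) ⬝ᵥ v) ^ 2 ≤ (8 * β + 4 * τ ^ 2 * (1 + K)) * qf a v := by
  have h0 : ∀ x, 0 ≤ qf a x := fun x => (dot_self_nonneg x).trans (ha x)
  set d : Mon (q + 1) 1 → ℝ := n1 - ε • n2 with hd
  set v0 := v (z0 (q + 1) 1) with hv0
  set u : Fin (q + 1) → ℝ := fun i => v (m1 i) - v0 * p i with hu
  have hv : v = v0 • vv p + gv u := dec v p
  have e1 : d ⬝ᵥ v = v0 * (d ⬝ᵥ vv p) + d ⬝ᵥ gv u := by
    rw [hv, dotProduct_add, dotProduct_smul, smul_eq_mul]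
  have e2 : gv u = v - v0 • vv p := by
    rw [hv, add_sub_cancel_left]
  have e3 : qf a (gv u) ≤ 2 * (qf a v + v0 ^ 2 * qf a (vv p)) := by
    rw [e2]
    have := Pool.Agent.Helper93.LIP.qf_sub_le h0 v (v0 • vv p)
    rwa [qf_smul_vec] at this
  have e4 : (d ⬝ᵥ vv p) ^ 2 ≤ 4 * β := by
    have e5 : d ⬝ᵥ vv p = n1 ⬝ᵥ vv p - ε * (n2 ⬝ᵥ vv p) := by
      rw [hd, sub_dotProduct, smul_dotProduct, smul_eq_mul]
    have e6 : ε ^ 2 = 1 := by rcases hε with h | h <;> rw [h] <;> norm_num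
    rw [e5]
    nlinarith [sq_nonneg (n1 ⬝ᵥ vv p + ε * (n2 ⬝ᵥ vv p))]
  have e7 := z0_le ha v
  have e8 := hc u
  have e9 := sq_nonneg v0
  have e10 := h0 (vv p)
  have e11 := h0 v
  have e12 : v0 ^ 2 * qf a (vv p) ≤ qf a v * K := mul_le_mul e7 hp e10 e11
  have e13 : (d ⬝ᵥ v) ^ 2 ≤ 2 * (v0 ^ 2 * (d ⬝ᵥ vv p) ^ 2) + 2 * (d ⬝ᵥ gv u) ^ 2 := by
    rw [e1]
    nlinarith [sq_nonneg (v0 * (d ⬝ᵥ vv p) - d ⬝ᵥ gv u)]
  have e14 : v0 ^ 2 * (d ⬝ᵥ vv p) ^ 2 ≤ qf a v * (4 * β) := mul_le_mul e7 e4 (sq_nonneg _) e11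
  have e15 : τ ^ 2 * qf a (gv u) ≤ τ ^ 2 * (2 * (qf a v + qf a v * K)) :=
    mul_le_mul_of_nonneg_left (by linarith) (sq_nonneg τ)
  calc (d ⬝ᵥ v) ^ 2 ≤ 2 * (qf a v * (4 * β)) + 2 * (τ ^ 2 * (2 * (qf a v + qf a v * K))) := by linarith
    _ = _ := by ring

/-- the rank one forms are comparable modulo the form -/
theorem rk1_close {a : Matrix (Mon (q + 1) 1) (Mon (q + 1) 1) ℝ} {n1 n2 : Mon (q + 1) 1 → ℝ} {ε W R : ℝ}
    (hε : ε = 1 ∨ ε = -1) (hW : 0 ≤ W) (v : Mon (q + 1) 1 → ℝ)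
    (h : ((n1 - ε • n2) ⬝ᵥ v) ^ 2 ≤ R * qf a v) :
    qf (rk1 W n1) v ≤ 2 * qf (rk1 W n2) v + 2 * W * R * qf a v ∧
      qf (rk1 W n2) v ≤ 2 * qf (rk1 W n1) v + 2 * W * R * qf a v := by
  have r1 : ∀ n : Mon (q + 1) 1 → ℝ, qf (rk1 W n) v = W * (n ⬝ᵥ v) ^ 2 := fun n => qf_rk1 W n v
  have e5 : (n1 - ε • n2) ⬝ᵥ v = n1 ⬝ᵥ v - ε * (n2 ⬝ᵥ v) := by
    rw [sub_dotProduct, smul_dotProduct, smul_eq_mul]
  rw [e5] at h
  rw [r1, r1]
  have e6 : ε ^ 2 = 1 := by rcases hε with h | h <;> rw [h] <;> norm_num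
  have e7 : (n1 ⬝ᵥ v) ^ 2 ≤ 2 * (n2 ⬝ᵥ v) ^ 2 + 2 * (R * qf a v) := by
    nlinarith [sq_nonneg (n1 ⬝ᵥ v - 2 * (ε * (n2 ⬝ᵥ v)))]
  have e8 : (n2 ⬝ᵥ v) ^ 2 ≤ 2 * (n1 ⬝ᵥ v) ^ 2 + 2 * (R * qf a v) := by
    nlinarith [sq_nonneg (2 * (n1 ⬝ᵥ v) - ε * (n2 ⬝ᵥ v))]
  constructor
  · have := mul_le_mul_of_nonneg_left e7 hW
    linarith
  · have := mul_le_mul_of_nonneg_left e8 hW
    linarith

theorem Jf_add (r : ℝ) {D : ℕ} (a b : Matrix (Mon (q + 1) D) (Mon (q + 1) D) ℝ) (p : Fin (q + 1) → ℝ) :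
    Jf r (a + b) p = Jf r a p + Jf r b p := by
  unfold Jf
  rw [← Finset.sum_add_distrib]
  refine Finset.sum_congr rfl fun j _ => ?_
  rw [Matrix.mul_add, Matrix.add_mul]

theorem rk1_psd {W : ℝ} (hW : 0 ≤ W) (n : Mon N 1 → ℝ) : Psd (rk1 W n) :=
  ⟨rk1_symm W n, fun x => by
    show 0 ≤ x ⬝ᵥ (rk1 W n *ᵥ x)
    rw [qf_rk1]
    positivity⟩

/-- THE GAIN OF VOLUME of a rank one form whose direction has dual norm one -/
theorem GG_rk1 (r : ℝ) {a : Matrix (Mon (q + 1) 1) (Mon (q + 1) 1) ℝ} (hs : a.IsSymm)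
    (ha : ∀ x, x ⬝ᵥ x ≤ qf a x) {n : Mon (q + 1) 1 → ℝ}
    (hn : ∃ u : Fin q → ℝ, qf a (gM u) = 1 ∧ n ⬝ᵥ gM u = 1) {W : ℝ} (hW : 0 ≤ W) (p : Fin (q + 1) → ℝ) :
    W / 2 * GG r a p ≤ GG r (a + rk1 W n) p := by
  obtain ⟨u, hu1, hu2⟩ := hn
  have h0 : ∀ x, 0 ≤ qf a x := fun x => (dot_self_nonneg x).trans (ha x)
  have hu0 : u ≠ 0 := by
    intro h
    rw [h] at hu2
    have h1 : (gM (0 : Fin q → ℝ) : Mon (q + 1) 1 → ℝ) = 0 := by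
      have h3 := gM_smul (0 : ℝ) (0 : Fin q → ℝ)
      rw [zero_smul, zero_smul] at h3
      exact h3
    rw [h1, dotProduct_zero] at hu2
    exact zero_ne_one hu2
  have hnn := nn_one (q + 1) 1
  have hA := one_Jf_pd r hs h0 p
  have hr := rk1_psd hW n
  have hB : Psd (Jf r (rk1 W n) p) := by
    constructor
    · have h1 := one_Jf_symm r hr.1 p
      have h2 : Jf r (rk1 W n) p = (1 + Jf r (rk1 W n) p) - 1 := by rw [add_sub_cancel_left]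
      rw [h2]
      exact h1.sub Matrix.isSymm_one
    · intro e
      exact Jf_nonneg r hr.2 p e
  have h1 := det_gain' hA hB (W / 2) u hu0 (by
    have e1 : qf (1 + Jf r a p) u = u ⬝ᵥ u + nn (q + 1) 1 := by
      unfold qf
      rw [dv_add, Matrix.one_mulVec, Jf_gM, hu1, mul_one]
    have e2 : qf (Jf r (rk1 W n) p) u = nn (q + 1) 1 * W := by
      unfold qf
      rw [Jf_gM]
      have : qf (rk1 W n) (gM u) = W * (n ⬝ᵥ gM u) ^ 2 := qf_rk1 W n _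
      rw [this, hu2]
      ring
    have e3 : u ⬝ᵥ u ≤ nn (q + 1) 1 := by
      have := Pool.Agent.Helper3.ZM.Jf_ge_self (D := 1) le_rfl r ha p u
      rw [Jf_gM, hu1, mul_one] at this
      exact this
    rw [e1, e2]
    nlinarith)
  have h2 : GG r (a + rk1 W n) p = ((1 + Jf r a p) + Jf r (rk1 W n) p).det := by
    unfold GG
    rw [Jf_add, add_assoc]
  rw [h2]
  refine le_trans ?_ h1
  have h3 : 0 ≤ GG r a p := zero_le_one.trans (one_le_GG r hs h0 p)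
  show W / 2 * GG r a p ≤ (1 + W / 2) * GG r a p
  nlinarith

/-- comparison of volumes of forms of degree one -/
theorem GG_le_qf (r : ℝ) {a b : Matrix (Mon (q + 1) 1) (Mon (q + 1) 1) ℝ} (ha : Psd a) (hb : Psd b) {R : ℝ}
    (hR : 1 ≤ R) (h : ∀ v, qf a v ≤ R * qf b v) (p : Fin (q + 1) → ℝ) : GG r a p ≤ R ^ q * GG r b p := by
  refine GG_le_of r r b a hb.1 hb.2 ha.1 ha.2 p p R hR fun e => ?_
  rw [Jf_gM, Jf_gM]
  have h3 := nn_one (q + 1) 1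
  have := mul_le_mul_of_nonneg_left (h (gM e)) (show (0 : ℝ) ≤ nn (q + 1) 1 by linarith)
  refine this.trans (le_of_eq ?_)
  ring

end

end Pool.Agent.Helper52.L24
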