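import Pool.Agent.Helper89.MG.Agf2L

/-! Agreement modulo a known form, with the explicit probability. -/

set_option autoImplicit false

namespace Pool.Agent.Helper52.L24

open Finset Filter Topology Matrix Pool.Agent.Helper69.RK Pool.Agent.Helper31.EC Pool.Agent.Helper40.EL
open Pool.Agent.Helper95.LF (PdM NearM round_mat values_card)
open Pool.Agent.Helper89.LX

noncomputable section

/-- AGREEMENT MODULO A KNOWN FORM (helper89's lab_modL with the probability), the copies for `B` are given `(LB, B)` -/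
theorem lab_modP (ι : Type) [Fintype ι] [DecidableEq ι] : ∃ Cc : ℝ, 0 ≤ Cc ∧ ∀ {S : Sp} (Φ : Gau S ι) (_ : MonG Φ.φ)
    {A B : Part S} {l : Lab S} (_ : l.IsMax A B) (_ : A.Bd)
    (_ : ∀ E : ∀ k, (l.sp.F k).Ω → Prop, (A.im l.pj E).Bd)
    (LB : ∀ k, Setoid (l k).T.Ω) (_ : ∀ k, LB k ≤ (l k).V) (_ : Nul S (fun k => ((l k).wV (LB k)).leak (B k)))
    (DA DB : ∀ k, FAm (l k).T (l k).T) (_ : ∀ k, (DA k).f = (DA k).g)
    (_ : ∀ k, (fc (Setoid.ker (DA k).f) : FL (l k).T) ≤ (l k).v ⊔ (l k).p.map (A k))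
    (_ : ∀ k, (fc (Setoid.ker (DB k).f) : FL (l k).T) ≤ fc (LB k) ⊔ (l k).p.map (B k))
    (a b : ∀ k, (l k).T.Ω → Matrix ι ι ℝ)
    (_ : ∀ᶠ k in UF, ∀ ω, (l k).T.μ ω ≠ 0 → Cpd (Φ.cp k) (a k ω) ∧ Psd (b k ω))
    (_ : ∀ η : ℝ, 0 < η → ∀ᶠ k in UF, (l k).T.pb (fun ω => ¬ Φ.φ k ((l k).p.π ω) (a k ω) ≤ 2 ^ (η * (S.F k).n)) ≤ η)
    (_ : ∀ η : ℝ, 0 < η → ∀ᶠ k in UF, (l k).T.pb (fun ω => ¬ Φ.φ k ((l k).p.π ω) (b k ω) ≤ 2 ^ (η * (S.F k).n)) ≤ η)
    (e : ℝ) (_ : 0 < e) {p q : ℝ} (_ : 1 < p + q)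
    (_ : ∀ᶠ k in UF, p ≤ (DA k).sp.pb (fun w => NrM (e * (S.F k).n) (a k w.1) (b k w.1) (a k w.2) (b k w.2)))
    (_ : ∀ᶠ k in UF, q ≤ (DB k).sp.pb (fun w => NrM (e * (S.F k).n) (a k w.1) (b k w.1) (a k w.2) (b k w.2))),
    ∃ E M c, AgOut Φ ![A, B] l (fun k ω => csum (Φ.cp k) (a k ω) (b k ω)) ((p + q - 1) / 2) (Cc * e) E M c := by
  classical
  obtain ⟨Cc, hCc, h⟩ := agf_pairL ι
  refine ⟨Cc * 2, by positivity, ?_⟩
  intro S Φ hφ A B l hl hA hA2 LB hLB hLl DA DB hD hYA hYB a b hab ha hb e he p q hpq hp hq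
  set ε : ℝ := (p + q - 1) / 8 with hε
  have hε0 : 0 < ε := by rw [hε]; linarith
  have htyp := Φ.csum_typ (T := fun k => (l k).T) (π := fun k => (l k).p.π) (fun k ω h => (l k).p.supp ω h) hab ha hb hε0
  have hlarge : ∀ᶠ k in UF, 1 ≤ e * (S.F k).n := by
    filter_upwards [S.lim.eventually (eventually_ge_atTop (1 / e))] with k hk
    rw [div_le_iff₀ he] at hk
    linarith
  have hnear : ∀ (D : ∀ k, FAm (l k).T (l k).T) (r : ℝ),
      (∀ᶠ k in UF, r ≤ (D k).sp.pb (fun w => NrM (e * (S.F k).n) (a k w.1) (b k w.1) (a k w.2) (b k w.2))) →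
      ∀ᶠ k in UF, r - 2 * ε ≤ (D k).sp.pb (fun w => Nr (e * 2 * (S.F k).n)
        (csum (Φ.cp k) (a k w.1) (b k w.1)) (csum (Φ.cp k) (a k w.2) (b k w.2))) := by
    intro D r hr
    filter_upwards [hr, htyp, hab, hlarge] with k h1 h2 h3 h4
    have p1 := pb_push (D k).p1 (fun ω => ¬ Cpd (Φ.cp k) (a k ω + b k ω))
    have p2 := pb_push (D k).p2 (fun ω => ¬ Cpd (Φ.cp k) (a k ω + b k ω))
    have h5 : (D k).sp.pb (fun w => NrM (e * (S.F k).n) (a k w.1) (b k w.1) (a k w.2) (b k w.2)) ≤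
        (D k).sp.pb (fun w => Nr (e * 2 * (S.F k).n) (csum (Φ.cp k) (a k w.1) (b k w.1))
          (csum (Φ.cp k) (a k w.2) (b k w.2))) + ((D k).sp.pb (fun w => ¬ Cpd (Φ.cp k) (a k w.1 + b k w.1)) +
          (D k).sp.pb (fun w => ¬ Cpd (Φ.cp k) (a k w.2 + b k w.2))) := by
      refine le_trans (FSp.pb_mono _ ?_) ((pb_or _ _ _).trans (add_le_add le_rfl (pb_or _ _ _)))
      intro w hw hN
      by_cases c1 : Cpd (Φ.cp k) (a k w.1 + b k w.1)
      · by_cases c2 : Cpd (Φ.cp k) (a k w.2 + b k w.2)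
        · left
          unfold csum
          rw [if_pos c1, if_pos c2]
          obtain ⟨n1, n2, n3, n4⟩ := hN
          have s1 := h3 _ ((D k).p1.supp w hw)
          have s2 := h3 _ ((D k).p2.supp w hw)
          have e1 : (2 : ℝ) * 2 ^ (e * (S.F k).n) ≤ 2 ^ (e * 2 * (S.F k).n) := by
            rw [mul_comm, ← Real.rpow_add_one (by norm_num)]
            apply Real.rpow_le_rpow_of_exponent_le (by norm_num)
            linarith
          have key : ∀ {a1 b1 a2 b2 : Matrix ι ι ℝ}, Psd a2 → Psd b2 →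
              (∀ v, qf a1 v ≤ 2 ^ (e * (S.F k).n) * qf a2 v) →
              (∀ v, qf b1 v ≤ 2 ^ (e * (S.F k).n) * (qf a2 v + qf b2 v)) →
              ∀ v, qf (a1 + b1) v ≤ 2 ^ (e * 2 * (S.F k).n) * qf (a2 + b2) v := by
            intro a1 b1 a2 b2 ha2 hb2 u1 u2 v
            rw [qf_add, qf_add]
            have x1 := ha2.2 v
            have x2 := hb2.2 v
            have x3 : (2 : ℝ) * 2 ^ (e * (S.F k).n) * (qf a2 v + qf b2 v) ≤
                2 ^ (e * 2 * (S.F k).n) * (qf a2 v + qf b2 v) := mul_le_mul_of_nonneg_right e1 (by linarith)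
            have x4 : 0 ≤ (2 : ℝ) ^ (e * (S.F k).n) * qf b2 v := by positivity
            have := u1 v
            have := u2 v
            linarith
          exact ⟨key s2.1.psd s2.2 n1 n3, key s1.1.psd s1.2 n2 n4⟩
        · exact Or.inr (Or.inr c2)
      · exact Or.inr (Or.inl c1)
    have h6 : (D k).sp.pb (fun w => ¬ Cpd (Φ.cp k) (a k w.1 + b k w.1)) = (l k).T.pb
        (fun ω => ¬ Cpd (Φ.cp k) (a k ω + b k ω)) := p1
    have h7 : (D k).sp.pb (fun w => ¬ Cpd (Φ.cp k) (a k w.2 + b k w.2)) = (l k).T.pb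
        (fun ω => ¬ Cpd (Φ.cp k) (a k ω + b k ω)) := p2
    rw [h6, h7] at h5
    linarith
  obtain ⟨E, M, c, hag⟩ := h Φ hφ hl hA hA2 LB hLB hLl DA DB hD hYA hYB (fun k ω => csum (Φ.cp k) (a k ω) (b k ω))
    (by filter_upwards [hab] with k hk ω hω using csum_Cpd (hk ω hω).1) (by
      intro η hη
      have hη4 : 0 < η / 4 := by linarith
      have hnk : ∀ᶠ k in UF, (4 / η : ℝ) ≤ (S.F k).n := S.lim.eventually (eventually_ge_atTop _)
      filter_upwards [ha _ hη4, hb _ hη4, hab, hnk] with k h1 h2 h3 hnk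
      have hn := (S.F k).pos
      refine le_trans (le_trans (FSp.pb_mono _ (E' := fun ω =>
        (¬ Φ.φ k ((l k).p.π ω) (a k ω) ≤ 2 ^ (η / 4 * (S.F k).n)) ∨
        (¬ Φ.φ k ((l k).p.π ω) (b k ω) ≤ 2 ^ (η / 4 * (S.F k).n))) ?_) (pb_or _ _ _)) (by linarith)
      intro ω h0 h4
      by_contra hc
      push Not at hc
      apply h4
      have e1 : (2 : ℝ) ^ (η / 4 * (S.F k).n) * 2 ≤ 2 ^ (η * (S.F k).n) := by
        rw [← Real.rpow_add_one (by norm_num)]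
        apply Real.rpow_le_rpow_of_exponent_le (by norm_num)
        have : 1 ≤ η / 4 * (S.F k).n := by
          rw [div_le_iff₀ hη] at hnk
          linarith
        nlinarith
      have hpos : (0 : ℝ) < 2 ^ (η / 4 * (S.F k).n) := by positivity
      unfold csum
      split_ifs
      · rw [Φ.add]
        linarith [hc.1, hc.2]
      · linarith [hc.1])
    (e * 2) (by linarith) (p := p - 2 * ε) (q := q - 2 * ε) (by rw [hε]; linarith) (hnear DA p hp) (hnear DB q hq)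
  refine ⟨E, M, c, ?_⟩
  have e3 : p - 2 * ε + (q - 2 * ε) - 1 = (p + q - 1) / 2 := by rw [hε]; ring
  rw [e3] at hag
  have e2 : Cc * 2 * e = Cc * (e * 2) := by ring
  rw [e2]
  exact hag

end

end Pool.Agent.Helper52.L24
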